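import Mathlib

open Filter Topology

namespace Pool.Agent.Results.MP_af7016_co.LimitIsHalf

/-- The `k`-term geometric progression `{a, a r, a r^2, ..., a r^(k-1)}`. -/
def gp (k a r : ℕ) : Finset ℕ := (Finset.range k).image fun j => a * r ^ j

/-- `F` is a `k`-GP cover of `[N] = {1, ..., N}`: every member of the finite family `F` is a
`k`-term geometric progression with positive integer first term and integer ratio at least `2`,
and every element of `[N]` lies in some member of `F`. -/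
def IsGPCover (k N : ℕ) (F : Finset (Finset ℕ)) : Prop :=
  (∀ S ∈ F, ∃ a r : ℕ, 1 ≤ a ∧ 2 ≤ r ∧ S = gp k a r) ∧
    ∀ n : ℕ, 1 ≤ n → n ≤ N → ∃ S ∈ F, n ∈ S

/-- `m_k(N)`: the smallest size of a `k`-GP cover of `[N]`. -/
noncomputable def minCover (k N : ℕ) : ℕ :=
  sInf {c : ℕ | ∃ F : Finset (Finset ℕ), IsGPCover k N F ∧ F.card = c}

/-- The lower limiting density `liminf_N m_k(N) / N`. -/
noncomputable def lowerGamma (k : ℕ) : ℝ :=
  liminf (fun N : ℕ => (minCover k N : ℝ) / N) atTop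

/-- The upper limiting density `limsup_N m_k(N) / N`. -/
noncomputable def upperGamma (k : ℕ) : ℝ :=
  limsup (fun N : ℕ => (minCover k N : ℝ) / N) atTop

/-- Two elements of one progression of integer ratio at least `2`, both at most `N` and both
larger than `N / 2`, are equal. -/
lemma gp_inj {k a r N x y : ℕ} (hr : 2 ≤ r) (hx : x ∈ gp k a r) (hy : y ∈ gp k a r)
    (hxN : x ≤ N) (hyN : y ≤ N) (hx2 : N < 2 * x) (hy2 : N < 2 * y) : x = y := by
  simp only [gp, Finset.mem_image, Finset.mem_range] at hx hy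
  obtain ⟨i, _, rfl⟩ := hx
  obtain ⟨j, _, rfl⟩ := hy
  rcases lt_trichotomy i j with h | h | h
  · exfalso
    obtain ⟨d, rfl⟩ := Nat.exists_eq_add_of_lt h
    have h1 : a * r ^ (i + d + 1) = (a * r ^ i) * r ^ (d + 1) := by ring
    have h2 : 2 ≤ r ^ (d + 1) := le_trans hr (Nat.le_self_pow (by omega) r)
    have h3 : (a * r ^ i) * 2 ≤ (a * r ^ i) * r ^ (d + 1) := Nat.mul_le_mul_left _ h2
    omega
  · rw [h]
  · exfalso
    obtain ⟨d, rfl⟩ := Nat.exists_eq_add_of_lt h
    have h1 : a * r ^ (j + d + 1) = (a * r ^ j) * r ^ (d + 1) := by ring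
    have h2 : 2 ≤ r ^ (d + 1) := le_trans hr (Nat.le_self_pow (by omega) r)
    have h3 : (a * r ^ j) * 2 ≤ (a * r ^ j) * r ^ (d + 1) := Nat.mul_le_mul_left _ h2
    omega

/-- Every cover of `[N]` has at least `N / 2` members. -/
lemma card_lower {k N : ℕ} {F : Finset (Finset ℕ)} (h : IsGPCover k N F) :
    N ≤ 2 * F.card := by
  classical
  have key : (Finset.Ioc (N / 2) N).card ≤ F.card := by
    have hex : ∀ n ∈ Finset.Ioc (N / 2) N, ∃ S ∈ F, n ∈ S := by
      intro n hn
      rw [Finset.mem_Ioc] at hn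
      exact h.2 n (by omega) hn.2
    choose! f hf using hex
    refine Finset.card_le_card_of_injOn f (fun n hn => (hf n hn).1) ?_
    intro x hx y hy hxy
    have hx' := hx
    have hy' := hy
    rw [Finset.mem_coe, Finset.mem_Ioc] at hx hy
    obtain ⟨a, r, _, hr, hS⟩ := h.1 (f x) (hf x hx').1
    have h1 : x ∈ gp k a r := hS ▸ (hf x hx').2
    have h2 : y ∈ gp k a r := by
      have := (hf y hy').2
      rw [← hxy, hS] at this
      exact this
    exact gp_inj hr h1 h2 hx.2 hy.2 (by omega) (by omega)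
  rw [Nat.card_Ioc] at key
  omega

/-- The starting points of the progressions of ratio `2` that are used in the upper bound. -/
def starts (k N : ℕ) : Finset ℕ :=
  (Finset.Icc 1 N).filter fun n => k ∣ padicValNat 2 n

lemma starts_cover {k N : ℕ} (hk : 1 ≤ k) :
    IsGPCover k N ((starts k N).image fun a => gp k a 2) := by
  refine ⟨?_, ?_⟩
  · intro S hS
    rw [Finset.mem_image] at hS
    obtain ⟨a, ha, rfl⟩ := hS
    rw [starts, Finset.mem_filter, Finset.mem_Icc] at ha
    exact ⟨a, 2, ha.1.1, le_refl _, rfl⟩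
  · intro n hn1 hnN
    have hn0 : n ≠ 0 := by omega
    set v := padicValNat 2 n with hv
    have hdvd : 2 ^ v ∣ n := pow_padicValNat_dvd
    obtain ⟨b, hb⟩ := hdvd
    have hb0 : b ≠ 0 := by rintro rfl; simp at hb; omega
    have hbv : padicValNat 2 b = 0 := by
      have h1 : padicValNat 2 n = padicValNat 2 (2 ^ v) + padicValNat 2 b := by
        conv_lhs => rw [hb]
        exact padicValNat.mul (by positivity) hb0
      rw [padicValNat.prime_pow] at h1
      omega
    have hdm := Nat.div_add_mod v k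
    have hpow : 2 ^ v = 2 ^ (k * (v / k)) * 2 ^ (v % k) := by
      rw [← pow_add, hdm]
    refine ⟨gp k (2 ^ (k * (v / k)) * b) 2, ?_, ?_⟩
    · rw [Finset.mem_image]
      refine ⟨2 ^ (k * (v / k)) * b, ?_, rfl⟩
      rw [starts, Finset.mem_filter, Finset.mem_Icc]
      refine ⟨⟨?_, ?_⟩, ?_⟩
      · have : 0 < 2 ^ (k * (v / k)) * b := by positivity
        omega
      · have h1 : 2 ^ (k * (v / k)) * b ≤ n := by
          rw [hb, hpow]
          have : 1 ≤ 2 ^ (v % k) := Nat.one_le_two_pow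
          nlinarith [Nat.zero_le (2 ^ (k * (v / k)) * b)]
        omega
      · rw [padicValNat.mul (by positivity) hb0, padicValNat.prime_pow, hbv]
        exact ⟨v / k, by ring⟩
    · rw [gp, Finset.mem_image]
      refine ⟨v % k, ?_, ?_⟩
      · rw [Finset.mem_range]; exact Nat.mod_lt _ (by omega)
      · conv_rhs => rw [hb, hpow]
        ring

lemma starts_card {k N : ℕ} : (starts k N).card ≤ (N + 1) / 2 + N / 2 ^ k := by
  classical
  have hsub : starts k N ⊆
      ((Finset.range ((N + 1) / 2)).image fun i => 2 * i + 1) ∪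
        ((Finset.Icc 1 (N / 2 ^ k)).image fun i => 2 ^ k * i) := by
    intro n hn
    rw [starts, Finset.mem_filter, Finset.mem_Icc] at hn
    obtain ⟨⟨h1, h2⟩, h3⟩ := hn
    rw [Finset.mem_union]
    by_cases hodd : n % 2 = 1
    · left
      rw [Finset.mem_image]
      exact ⟨n / 2, by rw [Finset.mem_range]; omega, by omega⟩
    · right
      have hev : 2 ∣ n := by omega
      have hv1 : 1 ≤ padicValNat 2 n := one_le_padicValNat_of_dvd (by omega) hev
      have hkv : k ≤ padicValNat 2 n := Nat.le_of_dvd hv1 h3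
      have hd : 2 ^ k ∣ n := dvd_trans (pow_dvd_pow 2 hkv) pow_padicValNat_dvd
      obtain ⟨c, hc⟩ := hd
      rw [Finset.mem_image]
      refine ⟨c, ?_, hc.symm⟩
      rw [Finset.mem_Icc]
      have hp : 0 < 2 ^ k := by positivity
      constructor
      · rcases Nat.eq_zero_or_pos c with h | h
        · subst h; omega
        · exact h
      · rw [Nat.le_div_iff_mul_le hp]
        rw [mul_comm, ← hc]; exact h2
  refine le_trans (Finset.card_le_card hsub) (le_trans (Finset.card_union_le _ _) ?_)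
  refine add_le_add (le_trans Finset.card_image_le ?_) (le_trans Finset.card_image_le ?_)
  · rw [Finset.card_range]
  · rw [Nat.card_Icc, Nat.add_sub_cancel]

lemma minCover_mem {k N : ℕ} (hk : 1 ≤ k) :
    ∃ F : Finset (Finset ℕ), IsGPCover k N F ∧ F.card = minCover k N :=
  Nat.sInf_mem (s := {c : ℕ | ∃ F : Finset (Finset ℕ), IsGPCover k N F ∧ F.card = c})
    ⟨_, _, starts_cover hk, rfl⟩

lemma minCover_lower {k N : ℕ} (hk : 1 ≤ k) : N ≤ 2 * minCover k N := by
  obtain ⟨F, hF, hc⟩ := minCover_mem (k := k) (N := N) hk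
  rw [← hc]
  exact card_lower hF

lemma minCover_upper {k N : ℕ} (hk : 1 ≤ k) : minCover k N ≤ (N + 1) / 2 + N / 2 ^ k := by
  refine le_trans (Nat.sInf_le ⟨_, starts_cover hk, rfl⟩) ?_
  exact le_trans Finset.card_image_le starts_card

lemma ratio_lower {k N : ℕ} (hk : 1 ≤ k) (hN : 1 ≤ N) : (1 / 2 : ℝ) ≤ (minCover k N : ℝ) / N := by
  have h : (N : ℝ) ≤ 2 * minCover k N := by exact_mod_cast minCover_lower hk
  have hN' : (0 : ℝ) < N := by exact_mod_cast hN
  rw [le_div_iff₀ hN']
  linarith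

lemma ratio_upper {k N : ℕ} (hk : 1 ≤ k) (hN : 1 ≤ N) :
    (minCover k N : ℝ) / N ≤ 1 / 2 + 1 / 2 ^ k + 1 / (N : ℝ) := by
  have hN' : (0 : ℝ) < N := by exact_mod_cast hN
  have h : (minCover k N : ℝ) ≤ (((N + 1) / 2 : ℕ) : ℝ) + ((N / 2 ^ k : ℕ) : ℝ) := by
    exact_mod_cast minCover_upper hk
  have h1 : (((N + 1) / 2 : ℕ) : ℝ) ≤ ((N + 1 : ℕ) : ℝ) / ((2 : ℕ) : ℝ) := Nat.cast_div_le
  have h2 : ((N / 2 ^ k : ℕ) : ℝ) ≤ (N : ℝ) / ((2 ^ k : ℕ) : ℝ) := Nat.cast_div_le
  push_cast at h1 h2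
  have h3 : (minCover k N : ℝ) ≤ (N + 1) / 2 + N / 2 ^ k := by linarith
  rw [div_le_iff₀ hN']
  have h4 : (1 / 2 + 1 / 2 ^ k + 1 / (N : ℝ)) * N = N / 2 + N / 2 ^ k + 1 := by
    field_simp
  rw [h4]
  linarith

lemma lowerGamma_ge {k : ℕ} (hk : 1 ≤ k) : (1 / 2 : ℝ) ≤ lowerGamma k := by
  unfold lowerGamma
  refine le_liminf_of_le ?_ ?_
  · refine IsBoundedUnder.isCoboundedUnder_ge ?_
    refine ⟨1 / 2 + 1 / 2 ^ k + 1, ?_⟩
    rw [eventually_map]
    filter_upwards [eventually_ge_atTop 1] with N hN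
    refine le_trans (ratio_upper hk hN) ?_
    have : (1 : ℝ) / N ≤ 1 := by
      rw [div_le_one (by exact_mod_cast hN)]
      exact_mod_cast hN
    linarith
  · filter_upwards [eventually_ge_atTop 1] with N hN
    exact ratio_lower hk hN

lemma upperGamma_le {k : ℕ} (hk : 1 ≤ k) : upperGamma k ≤ 1 / 2 + 1 / 2 ^ k := by
  unfold upperGamma
  have hlim : Tendsto (fun N : ℕ => (1 / 2 + 1 / 2 ^ k + 1 / (N : ℝ) : ℝ)) atTop
      (𝓝 (1 / 2 + 1 / 2 ^ k + 0)) :=
    tendsto_const_nhds.add tendsto_one_div_atTop_nhds_zero_nat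
  rw [add_zero] at hlim
  rw [← hlim.limsup_eq]
  refine limsup_le_limsup ?_ ?_ ?_
  · filter_upwards [eventually_ge_atTop 1] with N hN
    exact ratio_upper hk hN
  · refine IsBoundedUnder.isCoboundedUnder_le ?_
    refine ⟨0, ?_⟩
    rw [eventually_map]
    filter_upwards with N
    positivity
  · exact hlim.isBoundedUnder_le

lemma lower_le_upper {k : ℕ} (hk : 1 ≤ k) : lowerGamma k ≤ upperGamma k := by
  unfold lowerGamma upperGamma
  refine liminf_le_limsup ?_ ?_
  · refine ⟨1 / 2 + 1 / 2 ^ k + 1, ?_⟩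
    rw [eventually_map]
    filter_upwards [eventually_ge_atTop 1] with N hN
    refine le_trans (ratio_upper hk hN) ?_
    have : (1 : ℝ) / N ≤ 1 := by
      rw [div_le_one (by exact_mod_cast hN)]
      exact_mod_cast hN
    linarith
  · refine ⟨0, ?_⟩
    rw [eventually_map]
    filter_upwards with N
    positivity

/-- Both limiting densities of optimal covers by `k`-term geometric progressions tend to `1 / 2`
as `k` tends to infinity. -/
theorem result :
    Tendsto lowerGamma atTop (𝓝 (1 / 2)) ∧ Tendsto upperGamma atTop (𝓝 (1 / 2)) := by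
  have hp : Tendsto (fun k : ℕ => (1 / 2 + 1 / 2 ^ k : ℝ)) atTop (𝓝 (1 / 2)) := by
    have h1 : Tendsto (fun k : ℕ => ((1 / 2 : ℝ)) ^ k) atTop (𝓝 0) :=
      tendsto_pow_atTop_nhds_zero_of_lt_one (by norm_num) (by norm_num)
    have h2 : Tendsto (fun k : ℕ => (1 / 2 + (1 / 2 : ℝ) ^ k)) atTop (𝓝 (1 / 2 + 0)) :=
      tendsto_const_nhds.add h1
    rw [add_zero] at h2
    refine h2.congr fun k => ?_
    rw [one_div_pow]
  constructor
  · refine tendsto_of_tendsto_of_tendsto_of_le_of_le' tendsto_const_nhds hp ?_ ?_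
    · filter_upwards [eventually_ge_atTop 1] with k hk using lowerGamma_ge hk
    · filter_upwards [eventually_ge_atTop 1] with k hk
      exact le_trans (lower_le_upper hk) (upperGamma_le hk)
  · refine tendsto_of_tendsto_of_tendsto_of_le_of_le' tendsto_const_nhds hp ?_ ?_
    · filter_upwards [eventually_ge_atTop 1] with k hk
      exact le_trans (lowerGamma_ge hk) (lower_le_upper hk)
    · filter_upwards [eventually_ge_atTop 1] with k hk using upperGamma_le hk

end Pool.Agent.Results.MP_af7016_co.LimitIsHalf
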