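import Mathlib

open Filter Topology

namespace Pool.Agent.Results.MP_af7016_co.RationalRatio

/-- The `k`-term geometric progression `{a, a r, a r^2, ..., a r^(k-1)}`. -/
def gp (k a r : ℕ) : Finset ℕ := (Finset.range k).image fun j => a * r ^ j

/-- `S` is (the set of terms of) a `k`-term geometric progression of positive integers whose
common ratio is an arbitrary rational number larger than `1`. -/
def IsRatGP (k : ℕ) (S : Finset ℕ) : Prop :=
  ∃ a r : ℚ, 0 < a ∧ 1 < r ∧
    S.image (fun n : ℕ => (n : ℚ)) = (Finset.range k).image fun j => a * r ^ j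

/-- `F` is a cover of `[N] = {1, ..., N}` by `k`-term geometric progressions of positive integers
with rational ratio larger than `1`. -/
def IsGPCover (k N : ℕ) (F : Finset (Finset ℕ)) : Prop :=
  (∀ S ∈ F, IsRatGP k S) ∧ ∀ n : ℕ, 1 ≤ n → n ≤ N → ∃ S ∈ F, n ∈ S

/-- `m_k(N)`: the smallest size of a `k`-GP cover of `[N]`. -/
noncomputable def minCover (k N : ℕ) : ℕ :=
  sInf {c : ℕ | ∃ F : Finset (Finset ℕ), IsGPCover k N F ∧ F.card = c}

/-- The lower limiting density `liminf_N m_k(N) / N`. -/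
noncomputable def lowerGamma (k : ℕ) : ℝ :=
  liminf (fun N : ℕ => (minCover k N : ℝ) / N) atTop

/-- The upper limiting density `limsup_N m_k(N) / N`. -/
noncomputable def upperGamma (k : ℕ) : ℝ :=
  limsup (fun N : ℕ => (minCover k N : ℝ) / N) atTop

/-- The integers in `[N]` divisible by the `e`-th power of some `m ≥ 2`. -/
def powerful (e N : ℕ) : Finset ℕ :=
  (Finset.Icc 1 N).filter fun n => ∃ m ∈ Finset.Icc 2 N, m ^ e ∣ n

lemma ratGP_inj {k N x y : ℕ} {S : Finset ℕ} (hk : 4 ≤ k) (hS : IsRatGP k S) (hx : x ∈ S)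
    (hy : y ∈ S) (hx1 : 1 ≤ x) (hxN : x ≤ N) (hyN : y ≤ N) (hx2 : N < 2 * x) (hy2 : N < 2 * y)
    (hbad : x ∉ powerful (k / 2) N) : x = y := by
  classical
  obtain ⟨a, r, ha, hr, hSr⟩ := hS
  have hterm : ∀ t < k, ∃ z : ℕ, (z : ℚ) = a * r ^ t := by
    intro t ht
    have h1 : a * r ^ t ∈ (Finset.range k).image fun j => a * r ^ j :=
      Finset.mem_image.2 ⟨t, Finset.mem_range.2 ht, rfl⟩
    rw [← hSr, Finset.mem_image] at h1
    obtain ⟨z, _, hz⟩ := h1
    exact ⟨z, hz⟩
  have hidx : ∀ z ∈ S, ∃ t < k, (z : ℚ) = a * r ^ t := by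
    intro z hz
    have h1 : (z : ℚ) ∈ S.image (fun n : ℕ => (n : ℚ)) := Finset.mem_image.2 ⟨z, hz, rfl⟩
    rw [hSr, Finset.mem_image] at h1
    obtain ⟨t, ht, hzt⟩ := h1
    exact ⟨t, Finset.mem_range.1 ht, hzt.symm⟩
  obtain ⟨i, hi, hxi⟩ := hidx x hx
  obtain ⟨j, hj, hyj⟩ := hidx y hy
  have hr0 : 0 < r := by linarith
  set q := r.den with hq
  set p := r.num.natAbs with hp
  have hq0 : 0 < q := r.den_pos
  have hnum : (p : ℤ) = r.num := by
    rw [hp]; exact Int.natAbs_of_nonneg (Rat.num_nonneg.2 hr0.le)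
  have hrpq : r * q = p := by
    have h1 : (r.num : ℚ) / r.den = r := Rat.num_div_den r
    have h2 : ((p : ℤ) : ℚ) = (r.num : ℚ) := by rw [hnum]
    have h3 : (p : ℚ) = (r.num : ℚ) := by rw [← h2]; norm_cast
    have hq' : (r.den : ℚ) ≠ 0 := by exact_mod_cast hq0.ne'
    rw [h3, hq]
    field_simp at h1
    linarith
  have hpq : q < p := by
    have : (q : ℚ) < p := by
      rw [← hrpq]
      have hq' : (0 : ℚ) < q := by exact_mod_cast hq0
      nlinarith
    exact_mod_cast this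
  have hcop : Nat.Coprime p q := r.reduced
  by_cases hq1 : q = 1
  · -- integer ratio
    have hrp : r = p := by rw [hq1] at hrpq; simpa using hrpq
    have hr2 : (2 : ℚ) ≤ r := by
      rw [hrp]; exact_mod_cast (by omega : 2 ≤ p)
    have hmono : ∀ u v : ℕ, ∀ s t : ℕ, (u : ℚ) = a * r ^ s → (v : ℚ) = a * r ^ t → s < t →
        N < 2 * u → v ≤ N → False := by
      intro u v s t hu hv hst hNu hvN
      obtain ⟨d, rfl⟩ := Nat.exists_eq_add_of_lt hst
      have h1 : (v : ℚ) = u * r ^ (d + 1) := by rw [hv, hu]; ring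
      have h2 : (2 : ℚ) ≤ r ^ (d + 1) := by
        have h3 : r ^ 1 ≤ r ^ (d + 1) := pow_le_pow_right₀ hr.le (by omega)
        rw [pow_one] at h3
        linarith
      have h4 : (2 : ℚ) * u ≤ v := by
        rw [h1]
        have : (0 : ℚ) ≤ u := by positivity
        nlinarith
      have h5 : 2 * u ≤ v := by exact_mod_cast h4
      omega
    rcases lt_trichotomy i j with h | h | h
    · exact (hmono x y i j hxi hyj h hx2 hyN).elim
    · have : (x : ℚ) = y := by rw [hxi, hyj, h]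
      exact_mod_cast this
    · exact (hmono y x j i hyj hxi h hy2 hxN).elim
  · -- proper rational ratio: `x` is divisible by a high power
    exfalso
    apply hbad
    obtain ⟨z0, hz0⟩ := hterm 0 (by omega)
    obtain ⟨z1, hz1⟩ := hterm (k - 1) (by omega)
    have hrq : ∀ t : ℕ, r ^ t * (q : ℚ) ^ t = (p : ℚ) ^ t := by
      intro t; rw [← mul_pow, hrpq]
    have e1 : x * q ^ i = z0 * p ^ i := by
      have : (x : ℚ) * (q : ℚ) ^ i = z0 * (p : ℚ) ^ i := by
        rw [hxi, hz0, ← hrq i]; ring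
      exact_mod_cast this
    have e2 : z1 * q ^ (k - 1 - i) = x * p ^ (k - 1 - i) := by
      have : (z1 : ℚ) * (q : ℚ) ^ (k - 1 - i) = x * (p : ℚ) ^ (k - 1 - i) := by
        rw [hxi, hz1, ← hrq (k - 1 - i)]
        have h3 : r ^ (k - 1) = r ^ i * r ^ (k - 1 - i) := by
          rw [← pow_add]; congr 1; omega
        rw [h3]; ring
      exact_mod_cast this
    have d1 : p ^ i ∣ x := by
      have h1 : p ^ i ∣ x * q ^ i := ⟨z0, by rw [e1]; ring⟩
      exact (Nat.Coprime.pow i i hcop).dvd_of_dvd_mul_right h1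
    have d2 : q ^ (k - 1 - i) ∣ x := by
      have h1 : q ^ (k - 1 - i) ∣ x * p ^ (k - 1 - i) := ⟨z1, by rw [← e2]; ring⟩
      exact (Nat.Coprime.pow _ _ hcop.symm).dvd_of_dvd_mul_right h1
    have hfin : ∀ m : ℕ, 2 ≤ m → m ^ (k / 2) ∣ x → x ∈ powerful (k / 2) N := by
      intro m hm hd
      rw [powerful, Finset.mem_filter, Finset.mem_Icc]
      refine ⟨⟨hx1, hxN⟩, m, ?_, hd⟩
      rw [Finset.mem_Icc]
      refine ⟨hm, ?_⟩
      have h1 : m ≤ m ^ (k / 2) := Nat.le_self_pow (by omega) m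
      have h2 : m ^ (k / 2) ≤ x := Nat.le_of_dvd hx1 hd
      omega
    by_cases hik : k / 2 ≤ i
    · exact hfin p (by omega) (dvd_trans (pow_dvd_pow p hik) d1)
    · exact hfin q (by omega) (dvd_trans (pow_dvd_pow q (by omega)) d2)

lemma sum_inv_sq {N : ℕ} (hN : 1 ≤ N) :
    ∑ m ∈ Finset.Icc 2 N, (1 : ℝ) / (m : ℝ) ^ 2 ≤ 1 - 1 / (N : ℝ) := by
  induction N, hN using Nat.le_induction with
  | base => simp
  | succ n hn ih =>
    rw [Finset.sum_Icc_succ_top (by omega)]
    have hn' : (1 : ℝ) ≤ n := by exact_mod_cast hn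
    have h1 : (1 : ℝ) / ((n + 1 : ℕ) : ℝ) ^ 2 ≤ 1 / (n : ℝ) - 1 / ((n + 1 : ℕ) : ℝ) := by
      push_cast
      rw [div_sub_div _ _ (by positivity) (by positivity), div_le_div_iff₀ (by positivity)
        (by positivity)]
      nlinarith
    linarith

lemma powerful_card {e N : ℕ} (he : 2 ≤ e) (hN : 1 ≤ N) :
    ((powerful e N).card : ℝ) ≤ N / 2 ^ (e - 2) := by
  classical
  have hsub : powerful e N ⊆ (Finset.Icc 2 N).biUnion fun m =>
      (Finset.Icc 1 (N / m ^ e)).image fun c => m ^ e * c := by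
    intro n hn
    rw [powerful, Finset.mem_filter, Finset.mem_Icc] at hn
    obtain ⟨⟨h1, h2⟩, m, hm, c, hc⟩ := hn
    rw [Finset.mem_biUnion]
    refine ⟨m, hm, ?_⟩
    rw [Finset.mem_image]
    refine ⟨c, ?_, hc.symm⟩
    rw [Finset.mem_Icc] at hm ⊢
    have hp : 0 < m ^ e := Nat.pow_pos (by omega)
    constructor
    · rcases Nat.eq_zero_or_pos c with h | h
      · subst h; omega
      · exact h
    · rw [Nat.le_div_iff_mul_le hp, mul_comm, ← hc]; exact h2
  have h1 : (powerful e N).card ≤ ∑ m ∈ Finset.Icc 2 N, N / m ^ e := by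
    refine le_trans (Finset.card_le_card hsub) (le_trans Finset.card_biUnion_le ?_)
    refine Finset.sum_le_sum fun m _ => ?_
    refine le_trans Finset.card_image_le ?_
    rw [Nat.card_Icc, Nat.add_sub_cancel]
  have h2 : ((powerful e N).card : ℝ) ≤ ∑ m ∈ Finset.Icc 2 N, ((N / m ^ e : ℕ) : ℝ) := by
    exact_mod_cast h1
  refine le_trans h2 ?_
  have h3 : ∀ m ∈ Finset.Icc 2 N, ((N / m ^ e : ℕ) : ℝ) ≤ N / 2 ^ (e - 2) * (1 / (m : ℝ) ^ 2) := by
    intro m hm
    rw [Finset.mem_Icc] at hm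
    have hm' : (2 : ℝ) ≤ m := by exact_mod_cast hm.1
    have h4 : ((N / m ^ e : ℕ) : ℝ) ≤ (N : ℝ) / ((m ^ e : ℕ) : ℝ) := Nat.cast_div_le
    refine le_trans h4 ?_
    rw [div_mul_div_comm, mul_one]
    push_cast
    apply div_le_div_of_nonneg_left (by positivity) (by positivity)
    have h5 : (m : ℝ) ^ e = (m : ℝ) ^ (e - 2) * (m : ℝ) ^ 2 := by
      rw [← pow_add]; congr 1; omega
    rw [h5]
    have h6 : (2 : ℝ) ^ (e - 2) ≤ (m : ℝ) ^ (e - 2) := pow_le_pow_left₀ (by norm_num) hm' _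
    exact mul_le_mul_of_nonneg_right h6 (by positivity)
  refine le_trans (Finset.sum_le_sum h3) ?_
  rw [← Finset.mul_sum]
  have h7 := sum_inv_sq hN
  have h8 : ∑ m ∈ Finset.Icc 2 N, (1 : ℝ) / (m : ℝ) ^ 2 ≤ 1 := by
    have : (0 : ℝ) ≤ 1 / (N : ℝ) := by positivity
    linarith
  calc (N : ℝ) / 2 ^ (e - 2) * ∑ m ∈ Finset.Icc 2 N, (1 : ℝ) / (m : ℝ) ^ 2
      ≤ (N : ℝ) / 2 ^ (e - 2) * 1 := mul_le_mul_of_nonneg_left h8 (by positivity)
    _ = _ := mul_one _

/-- Every cover of `[N]` has at least `N / 2` minus the number of powerful integers members. -/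
lemma card_lower {k N : ℕ} {F : Finset (Finset ℕ)} (hk : 4 ≤ k) (h : IsGPCover k N F) :
    N ≤ 2 * (F.card + (powerful (k / 2) N).card) := by
  classical
  have key : (Finset.Ioc (N / 2) N \ powerful (k / 2) N).card ≤ F.card := by
    have hex : ∀ n ∈ Finset.Ioc (N / 2) N \ powerful (k / 2) N, ∃ S ∈ F, n ∈ S := by
      intro n hn
      rw [Finset.mem_sdiff, Finset.mem_Ioc] at hn
      exact h.2 n (by omega) hn.1.2
    choose! f hf using hex
    refine Finset.card_le_card_of_injOn f (fun n hn => (hf n hn).1) ?_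
    intro x hx y hy hxy
    have hx' := hx
    have hy' := hy
    rw [Finset.mem_coe, Finset.mem_sdiff, Finset.mem_Ioc] at hx hy
    have h2 : y ∈ f x := by rw [hxy]; exact (hf y hy').2
    exact ratGP_inj hk (h.1 (f x) (hf x hx').1) (hf x hx').2 h2 (by omega) hx.1.2 hy.1.2
      (by omega) (by omega) hx.2
  have h1 := Finset.le_card_sdiff (powerful (k / 2) N) (Finset.Ioc (N / 2) N)
  rw [Nat.card_Ioc] at h1
  omega

/-- The starting points of the progressions of ratio `2` that are used in the upper bound. -/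
def starts (k N : ℕ) : Finset ℕ :=
  (Finset.Icc 1 N).filter fun n => k ∣ padicValNat 2 n

lemma starts_cover {k N : ℕ} (hk : 1 ≤ k) :
    IsGPCover k N ((starts k N).image fun a => gp k a 2) := by
  refine ⟨?_, ?_⟩
  · intro S hS
    rw [Finset.mem_image] at hS
    obtain ⟨a, ha, rfl⟩ := hS
    rw [starts, Finset.mem_filter, Finset.mem_Icc] at ha
    refine ⟨a, 2, by exact_mod_cast ha.1.1, by norm_num, ?_⟩
    rw [gp, Finset.image_image]
    refine Finset.image_congr fun j _ => ?_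
    simp
  · intro n hn1 hnN
    have hn0 : n ≠ 0 := by omega
    set v := padicValNat 2 n with hv
    have hdvd : 2 ^ v ∣ n := pow_padicValNat_dvd
    obtain ⟨b, hb⟩ := hdvd
    have hb0 : b ≠ 0 := by rintro rfl; simp at hb; omega
    have hbv : padicValNat 2 b = 0 := by
      have h1 : padicValNat 2 n = padicValNat 2 (2 ^ v) + padicValNat 2 b := by
        conv_lhs => rw [hb]
        exact padicValNat.mul (by positivity) hb0
      rw [padicValNat.prime_pow] at h1
      omega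
    have hdm := Nat.div_add_mod v k
    have hpow : 2 ^ v = 2 ^ (k * (v / k)) * 2 ^ (v % k) := by
      rw [← pow_add, hdm]
    refine ⟨gp k (2 ^ (k * (v / k)) * b) 2, ?_, ?_⟩
    · rw [Finset.mem_image]
      refine ⟨2 ^ (k * (v / k)) * b, ?_, rfl⟩
      rw [starts, Finset.mem_filter, Finset.mem_Icc]
      refine ⟨⟨?_, ?_⟩, ?_⟩
      · have : 0 < 2 ^ (k * (v / k)) * b := by positivity
        omega
      · have h1 : 2 ^ (k * (v / k)) * b ≤ n := by
          rw [hb, hpow]
          have : 1 ≤ 2 ^ (v % k) := Nat.one_le_two_pow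
          nlinarith [Nat.zero_le (2 ^ (k * (v / k)) * b)]
        omega
      · rw [padicValNat.mul (by positivity) hb0, padicValNat.prime_pow, hbv]
        exact ⟨v / k, by ring⟩
    · rw [gp, Finset.mem_image]
      refine ⟨v % k, ?_, ?_⟩
      · rw [Finset.mem_range]; exact Nat.mod_lt _ (by omega)
      · conv_rhs => rw [hb, hpow]
        ring

lemma starts_card {k N : ℕ} : (starts k N).card ≤ (N + 1) / 2 + N / 2 ^ k := by
  classical
  have hsub : starts k N ⊆
      ((Finset.range ((N + 1) / 2)).image fun i => 2 * i + 1) ∪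
        ((Finset.Icc 1 (N / 2 ^ k)).image fun i => 2 ^ k * i) := by
    intro n hn
    rw [starts, Finset.mem_filter, Finset.mem_Icc] at hn
    obtain ⟨⟨h1, h2⟩, h3⟩ := hn
    rw [Finset.mem_union]
    by_cases hodd : n % 2 = 1
    · left
      rw [Finset.mem_image]
      exact ⟨n / 2, by rw [Finset.mem_range]; omega, by omega⟩
    · right
      have hev : 2 ∣ n := by omega
      have hv1 : 1 ≤ padicValNat 2 n := one_le_padicValNat_of_dvd (by omega) hev
      have hkv : k ≤ padicValNat 2 n := Nat.le_of_dvd hv1 h3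
      have hd : 2 ^ k ∣ n := dvd_trans (pow_dvd_pow 2 hkv) pow_padicValNat_dvd
      obtain ⟨c, hc⟩ := hd
      rw [Finset.mem_image]
      refine ⟨c, ?_, hc.symm⟩
      rw [Finset.mem_Icc]
      have hp : 0 < 2 ^ k := by positivity
      constructor
      · rcases Nat.eq_zero_or_pos c with h | h
        · subst h; omega
        · exact h
      · rw [Nat.le_div_iff_mul_le hp]
        rw [mul_comm, ← hc]; exact h2
  refine le_trans (Finset.card_le_card hsub) (le_trans (Finset.card_union_le _ _) ?_)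
  refine add_le_add (le_trans Finset.card_image_le ?_) (le_trans Finset.card_image_le ?_)
  · rw [Finset.card_range]
  · rw [Nat.card_Icc, Nat.add_sub_cancel]

lemma minCover_mem {k N : ℕ} (hk : 1 ≤ k) :
    ∃ F : Finset (Finset ℕ), IsGPCover k N F ∧ F.card = minCover k N :=
  Nat.sInf_mem (s := {c : ℕ | ∃ F : Finset (Finset ℕ), IsGPCover k N F ∧ F.card = c})
    ⟨_, _, starts_cover hk, rfl⟩

lemma minCover_lower {k N : ℕ} (hk : 4 ≤ k) :
    N ≤ 2 * (minCover k N + (powerful (k / 2) N).card) := by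
  obtain ⟨F, hF, hc⟩ := minCover_mem (k := k) (N := N) (by omega)
  rw [← hc]
  exact card_lower hk hF

lemma minCover_upper {k N : ℕ} (hk : 1 ≤ k) : minCover k N ≤ (N + 1) / 2 + N / 2 ^ k := by
  refine le_trans (Nat.sInf_le ⟨_, starts_cover hk, rfl⟩) ?_
  exact le_trans Finset.card_image_le starts_card

lemma ratio_lower {k N : ℕ} (hk : 4 ≤ k) (hN : 1 ≤ N) :
    (1 / 2 - 1 / 2 ^ (k / 2 - 2) : ℝ) ≤ (minCover k N : ℝ) / N := by
  have h : (N : ℝ) ≤ 2 * (minCover k N + (powerful (k / 2) N).card) := by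
    exact_mod_cast minCover_lower hk
  have h2 := powerful_card (e := k / 2) (by omega) hN
  have hN' : (0 : ℝ) < N := by exact_mod_cast hN
  rw [le_div_iff₀ hN', sub_mul]
  have h3 : (1 / 2 ^ (k / 2 - 2) : ℝ) * N = N / 2 ^ (k / 2 - 2) := by ring
  rw [h3]
  linarith

lemma ratio_upper {k N : ℕ} (hk : 1 ≤ k) (hN : 1 ≤ N) :
    (minCover k N : ℝ) / N ≤ 1 / 2 + 1 / 2 ^ k + 1 / (N : ℝ) := by
  have hN' : (0 : ℝ) < N := by exact_mod_cast hN
  have h : (minCover k N : ℝ) ≤ (((N + 1) / 2 : ℕ) : ℝ) + ((N / 2 ^ k : ℕ) : ℝ) := by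
    exact_mod_cast minCover_upper hk
  have h1 : (((N + 1) / 2 : ℕ) : ℝ) ≤ ((N + 1 : ℕ) : ℝ) / ((2 : ℕ) : ℝ) := Nat.cast_div_le
  have h2 : ((N / 2 ^ k : ℕ) : ℝ) ≤ (N : ℝ) / ((2 ^ k : ℕ) : ℝ) := Nat.cast_div_le
  push_cast at h1 h2
  have h3 : (minCover k N : ℝ) ≤ (N + 1) / 2 + N / 2 ^ k := by linarith
  rw [div_le_iff₀ hN']
  have h4 : (1 / 2 + 1 / 2 ^ k + 1 / (N : ℝ)) * N = N / 2 + N / 2 ^ k + 1 := by
    field_simp
  rw [h4]
  linarith

lemma lowerGamma_ge {k : ℕ} (hk : 4 ≤ k) :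
    (1 / 2 - 1 / 2 ^ (k / 2 - 2) : ℝ) ≤ lowerGamma k := by
  unfold lowerGamma
  refine le_liminf_of_le ?_ ?_
  · refine IsBoundedUnder.isCoboundedUnder_ge ?_
    refine ⟨1 / 2 + 1 / 2 ^ k + 1, ?_⟩
    rw [eventually_map]
    filter_upwards [eventually_ge_atTop 1] with N hN
    refine le_trans (ratio_upper (by omega) hN) ?_
    have : (1 : ℝ) / N ≤ 1 := by
      rw [div_le_one (by exact_mod_cast hN)]
      exact_mod_cast hN
    linarith
  · filter_upwards [eventually_ge_atTop 1] with N hN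
    exact ratio_lower hk hN

lemma upperGamma_le {k : ℕ} (hk : 1 ≤ k) : upperGamma k ≤ 1 / 2 + 1 / 2 ^ k := by
  unfold upperGamma
  have hlim : Tendsto (fun N : ℕ => (1 / 2 + 1 / 2 ^ k + 1 / (N : ℝ) : ℝ)) atTop
      (𝓝 (1 / 2 + 1 / 2 ^ k + 0)) :=
    tendsto_const_nhds.add tendsto_one_div_atTop_nhds_zero_nat
  rw [add_zero] at hlim
  rw [← hlim.limsup_eq]
  refine limsup_le_limsup ?_ ?_ ?_
  · filter_upwards [eventually_ge_atTop 1] with N hN
    exact ratio_upper hk hN
  · refine IsBoundedUnder.isCoboundedUnder_le ?_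
    refine ⟨0, ?_⟩
    rw [eventually_map]
    filter_upwards with N
    positivity
  · exact hlim.isBoundedUnder_le

lemma lower_le_upper {k : ℕ} (hk : 1 ≤ k) : lowerGamma k ≤ upperGamma k := by
  unfold lowerGamma upperGamma
  refine liminf_le_limsup ?_ ?_
  · refine ⟨1 / 2 + 1 / 2 ^ k + 1, ?_⟩
    rw [eventually_map]
    filter_upwards [eventually_ge_atTop 1] with N hN
    refine le_trans (ratio_upper hk hN) ?_
    have : (1 : ℝ) / N ≤ 1 := by
      rw [div_le_one (by exact_mod_cast hN)]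
      exact_mod_cast hN
    linarith
  · refine ⟨0, ?_⟩
    rw [eventually_map]
    filter_upwards with N
    positivity

/-- Both limiting densities of optimal covers by `k`-term geometric progressions of positive
integers with rational ratio tend to `1 / 2` as `k` tends to infinity. -/
theorem result :
    Tendsto lowerGamma atTop (𝓝 (1 / 2)) ∧ Tendsto upperGamma atTop (𝓝 (1 / 2)) := by
  have h1 : Tendsto (fun k : ℕ => ((1 / 2 : ℝ)) ^ k) atTop (𝓝 0) :=
    tendsto_pow_atTop_nhds_zero_of_lt_one (by norm_num) (by norm_num)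
  have hp : Tendsto (fun k : ℕ => (1 / 2 + 1 / 2 ^ k : ℝ)) atTop (𝓝 (1 / 2)) := by
    have h2 : Tendsto (fun k : ℕ => (1 / 2 + (1 / 2 : ℝ) ^ k)) atTop (𝓝 (1 / 2 + 0)) :=
      tendsto_const_nhds.add h1
    rw [add_zero] at h2
    refine h2.congr fun k => ?_
    rw [one_div_pow]
  have hm : Tendsto (fun k : ℕ => (1 / 2 - 1 / 2 ^ (k / 2 - 2) : ℝ)) atTop (𝓝 (1 / 2)) := by
    have h3 : Tendsto (fun k : ℕ => k / 2 - 2) atTop atTop := by
      refine tendsto_atTop_atTop.2 fun b => ⟨2 * (b + 2), fun k hk => ?_⟩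
      omega
    have h2 : Tendsto (fun k : ℕ => (1 / 2 - (1 / 2 : ℝ) ^ (k / 2 - 2))) atTop (𝓝 (1 / 2 - 0)) :=
      tendsto_const_nhds.sub (h1.comp h3)
    rw [sub_zero] at h2
    refine h2.congr fun k => ?_
    rw [one_div_pow]
  constructor
  · refine tendsto_of_tendsto_of_tendsto_of_le_of_le' hm hp ?_ ?_
    · filter_upwards [eventually_ge_atTop 4] with k hk using lowerGamma_ge hk
    · filter_upwards [eventually_ge_atTop 4] with k hk
      exact le_trans (lower_le_upper (by omega)) (upperGamma_le (by omega))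
  · refine tendsto_of_tendsto_of_tendsto_of_le_of_le' hm hp ?_ ?_
    · filter_upwards [eventually_ge_atTop 4] with k hk
      exact le_trans (lowerGamma_ge hk) (lower_le_upper (by omega))
    · filter_upwards [eventually_ge_atTop 4] with k hk using upperGamma_le (by omega)

end Pool.Agent.Results.MP_af7016_co.RationalRatio
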